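import Pool.Agent.W910.IP.Stmts

/-! The ordinals `ω₁ ^ (γ + 2)`. -/

set_option autoImplicit false

open Cardinal Ordinal Set

namespace Pool.Agent.W910.IPG

open Pool.Agent.W910.IP

/-- The ordinal `ω₁ ^ (γ + 2)`. -/
noncomputable def Alg (γ : Ordinal.{0}) : Ordinal.{0} := (ℵ₁ : Cardinal.{0}).ord ^ (γ + 2)

/-- Rows and levels for `Alg γ`. -/
def S_ordG (γ : Ordinal.{0}) : Prop := ∃ (row : (Alg γ).ToType → Om) (lev : (Alg γ).ToType → ℕ),
  (∀ ξ m, ∃ x, row x = ξ ∧ m ≤ lev x) ∧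
  ∀ S : Set (Alg γ).ToType, Nonempty (S ≃o (Alg γ).ToType) → Full row lev S

end Pool.Agent.W910.IPG
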