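import Pool.Agent.W910.IPG.G7

/-! Tails and cofinal sequences. -/

set_option autoImplicit false

open Cardinal Ordinal Set

namespace Pool.Agent.W910.IPG.GTail

open Pool.Agent.W910.IP Pool.Agent.W910.IPG

theorem exSeq (γ : Ordinal.{0}) (hc : γ.cof = ℵ₀) :
    ∃ g : ℕ → Ordinal.{0}, (∀ n, g n < γ) ∧ ∀ a < γ, ∃ n, a < g n := by
  have hl : Order.IsSuccLimit γ := by
    rw [← Ordinal.one_lt_cof_iff, hc]
    exact Cardinal.one_lt_aleph0
  obtain ⟨s, hs, hcard⟩ := Order.exists_cof_eq (α := γ.ToType)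
  rw [Ordinal.cof_toType, hc] at hcard
  have hcs : s.Countable := Cardinal.le_aleph0_iff_set_countable.1 hcard.le
  have hne : s.Nonempty := by
    rw [Set.nonempty_iff_ne_empty]
    rintro rfl
    rw [Cardinal.mk_emptyCollection] at hcard
    exact Cardinal.aleph0_ne_zero hcard.symm
  obtain ⟨f, rfl⟩ := hcs.exists_eq_range hne
  refine ⟨fun n => (ToType.mk.symm (f n)).1, fun n => (ToType.mk.symm (f n)).2, fun a ha => ?_⟩
  have ha' : Order.succ a < γ := hl.succ_lt ha
  obtain ⟨_, ⟨n, rfl⟩, hn⟩ := hs (ToType.mk ⟨_, ha'⟩ : γ.ToType)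
  refine ⟨n, ?_⟩
  have h1 := ToType.mk.symm.le_iff_le.2 hn
  rw [OrderIso.symm_apply_apply] at h1
  exact (Order.lt_succ a).trans_le h1

/-- a set of type less than `B` -/
theorem exT (B : Ordinal.{0}) (T : Set B.ToType) (hT : ¬ Nonempty (T ≃o B.ToType)) :
    ∃ (τ : Ordinal.{0}) (g : B.ToType → Ordinal.{0}), τ < B ∧ StrictMonoOn g T ∧
      ∀ z ∈ T, g z < τ := by
  classical
  have h1 : Ordinal.type (fun a b : T => a < b) ≤ B := by
    have h2 : Ordinal.type (fun a b : T => a < b) ≤
        Ordinal.type (fun a b : B.ToType => a < b) :=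
      (RelEmbedding.ofMonotone (r := fun a b : T => a < b) (s := fun a b : B.ToType => a < b)
        (Subtype.val : T → B.ToType) (fun a b h => h)).ordinal_type_le
    rwa [type_toType] at h2
  have h2 : Ordinal.type (fun a b : T => a < b) ≠ B := by
    intro h
    have h3 : Ordinal.type (fun a b : T => a < b) =
        Ordinal.type (fun a b : B.ToType => a < b) := by
      rw [type_toType]; exact h
    obtain ⟨e⟩ := Ordinal.type_eq.1 h3
    exact hT ⟨OrderIso.ofRelIsoLT e⟩
  refine ⟨Ordinal.type (fun a b : T => a < b), fun x => if hx : x ∈ T then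
    Ordinal.typein (fun a b : T => a < b) ⟨x, hx⟩ else 0, lt_of_le_of_ne h1 h2, ?_, ?_⟩
  · intro x hx y hy hxy
    simp only [dif_pos hx, dif_pos hy]
    exact (Ordinal.typein_lt_typein (fun a b : T => a < b)).2 hxy
  · intro x hx
    simp only [dif_pos hx]
    exact Ordinal.typein_lt_type _ _

/-- `P` passes to tails. -/
theorem tail (A B : Ordinal.{0}) (hP : P (A + B)) : P B := by
  classical
  intro G
  let val : (A + B).ToType → Ordinal.{0} := fun x => (ToType.mk.symm x).1
  have hlt : ∀ x, val x < A + B := fun x => (ToType.mk.symm x).2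
  have hval : ∀ x y, x < y → val x < val y := fun x y h => ToType.mk.symm.lt_iff_lt.2 h
  have hinj : ∀ x y, val x = val y → x = y := fun x y h =>
    ToType.mk.symm.injective (Subtype.ext h)
  have hsub : ∀ x, A ≤ val x → val x - A < B := fun x hx =>
    (Ordinal.sub_lt_of_le hx).2 (hlt x)
  let H : SimpleGraph (A + B).ToType :=
    { Adj := fun x y => ∃ (hx : A ≤ val x) (hy : A ≤ val y),
        G.Adj (ToType.mk ⟨val x - A, hsub x hx⟩) (ToType.mk ⟨val y - A, hsub y hy⟩)
      symm := ⟨fun x y h => by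
        obtain ⟨hx, hy, h⟩ := h
        exact ⟨hy, hx, h.symm⟩⟩
      loopless := ⟨fun x h => by
        obtain ⟨hx, hy, h⟩ := h
        exact G.loopless.irrefl _ h⟩ }
  rcases hP H with ⟨f, hf, hadj⟩ | ⟨S, hS, ⟨e⟩⟩
  · left
    have hA : ∀ n, A ≤ val (f n) := fun n => (hadj n).1
    refine ⟨fun n => ToType.mk ⟨val (f n) - A, hsub _ (hA n)⟩, ?_, fun n => (hadj n).2.2⟩
    intro n m hnm
    apply hf
    apply hinj
    have h1 : val (f n) - A = val (f m) - A := by
      have h2 := congrArg (fun z : B.ToType => (ToType.mk.symm z).1) hnm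
      simpa only [OrderIso.symm_apply_apply] using h2
    rw [← Ordinal.add_sub_cancel_of_le (hA n), ← Ordinal.add_sub_cancel_of_le (hA m), h1]
  · right
    by_contra hcon
    let T : Set B.ToType := {z | ∃ x ∈ S, ∃ hx : A ≤ val x, ToType.mk ⟨val x - A, hsub x hx⟩ = z}
    have hT : ¬ Nonempty (T ≃o B.ToType) := by
      intro hq
      refine hcon ⟨T, ?_, hq⟩
      rintro _ ⟨x, hx, hxA, rfl⟩ _ ⟨y, hy, hyA, rfl⟩ hxy
      exact hS x hx y hy ⟨hxA, hyA, hxy⟩
    obtain ⟨τ, g, hτ, hg, hgb⟩ := exT B T hT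
    let F : (A + B).ToType → Ordinal.{0} := fun x =>
      if hx : A ≤ val x then A + g (ToType.mk ⟨val x - A, hsub x hx⟩) else val x
    refine G7.noSmall (A + B) S e F ?_ (A + τ) ((add_lt_add_iff_left A).2 hτ) ?_
    · intro x hx y hy hxy
      have h1 := hval x y hxy
      simp only [F]
      by_cases hxA : A ≤ val x
      · have hyA : A ≤ val y := hxA.trans h1.le
        rw [dif_pos hxA, dif_pos hyA]
        refine (add_lt_add_iff_left A).2 (hg ⟨x, hx, hxA, rfl⟩ ⟨y, hy, hyA, rfl⟩ ?_)
        refine ToType.mk.lt_iff_lt.2 ?_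
        change val x - A < val y - A
        rw [← add_lt_add_iff_left A, Ordinal.add_sub_cancel_of_le hxA,
          Ordinal.add_sub_cancel_of_le hyA]
        exact h1
      · rw [dif_neg hxA]
        by_cases hyA : A ≤ val y
        · rw [dif_pos hyA]
          exact (not_le.1 hxA).trans_le le_self_add
        · rw [dif_neg hyA]
          exact h1
    · intro x hx
      simp only [F]
      by_cases hxA : A ≤ val x
      · rw [dif_pos hxA]
        exact (add_lt_add_iff_left A).2 (hgb _ ⟨x, hx, hxA, rfl⟩)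
      · rw [dif_neg hxA]
        exact (not_le.1 hxA).trans_le le_self_add

end Pool.Agent.W910.IPG.GTail
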