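import Pool.Agent.W910.IPG.GFin
import Pool.Agent.W910.IPG.GTail

/-! The final statement. -/

set_option autoImplicit false

open Cardinal Ordinal Set

namespace Pool.Agent.W910.IPG

open Pool.Agent.W910.IP

theorem notP (h : DiamondOm) (γ : Ordinal.{0}) (hγ : γ < (Cardinal.aleph 2 : Cardinal.{0}).ord)
    (hc : γ.cof = ℵ₀) (δ β : Ordinal.{0}) (h1 : (ℵ₁ : Cardinal.{0}).ord ^ (γ + 2) ≤ β)
    (h2 : β < (ℵ₁ : Cardinal.{0}).ord ^ (γ + ω)) : ¬ P (δ + β) := by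
  obtain ⟨g, hg, hcof⟩ := GTail.exSeq γ hc
  exact fun hP => notP_seq h γ hγ g hg hcof β h1 h2 (GTail.tail δ β hP)

end Pool.Agent.W910.IPG
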