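import Pool.Agent.Helper220.ForceCH
import Pool.Agent.W910.IPG.GMain

/-!
# Graphs on ordinals without infinite paths and without large independent sets

`P(α)`: every graph on `α` has an infinite path or an independent set of order type `α`. Erdős,
Hajnal and Milner proved `P(α)` for all limit ordinals `α < ω₁ ^ (ω + 2)`. Under `◇` it fails for
`ω₁ ^ (ω + 2)`, and for all `δ + β` with `ω₁ ^ (γ + 2) ≤ β < ω₁ ^ (γ + ω)`, `γ < ω₂` of
cofinality `ω`; and `◇` can be forced without collapsing `ω₁`.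
-/

set_option autoImplicit false

open Cardinal Ordinal

namespace Pool.Agent.W910.IPG.DiamondResult

open Pool.Agent.Helper220.ForceCH (OmegaOnePreserved DiamondHolds)
open Pool.Agent.W910.IP

theorem result :
    (∃ (Q : Type) (_ : Preorder Q), Nonempty Q ∧ ∀ p : Q,
      p ∈ OmegaOnePreserved Q ∧ p ∈ DiamondHolds Q) ∧
    (DiamondOm → ∀ γ : Ordinal.{0}, γ < (Cardinal.aleph 2 : Cardinal.{0}).ord → γ.cof = ℵ₀ →
      ∀ δ β : Ordinal.{0}, (ℵ₁ : Cardinal.{0}).ord ^ (γ + 2) ≤ β →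
      β < (ℵ₁ : Cardinal.{0}).ord ^ (γ + ω) → ¬ P (δ + β)) := by
  constructor
  · obtain ⟨Q, hQ, hne, h⟩ := Pool.Agent.Helper220.ForceCH.exists_forcing
    exact ⟨Q, hQ, hne, fun p => ⟨(h p).1, (h p).2.1⟩⟩
  · exact fun h γ hγ hc δ β h1 h2 => Pool.Agent.W910.IPG.notP h γ hγ hc δ β h1 h2

end Pool.Agent.W910.IPG.DiamondResult
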