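import Pool.Agent.W910.IP.Stmts

set_option autoImplicit false

open Cardinal Ordinal Set

namespace Pool.Agent.W910.IPG.G4

lemma div_mono {b x x' : Ordinal.{0}} (hb : b ≠ 0) (h : x < x') : x / b ≤ x' / b := by
  rw [Ordinal.div_le hb]
  exact h.trans (Ordinal.lt_mul_succ_div x' hb)

lemma div_mod_lt {b x x' : Ordinal.{0}} (hb : b ≠ 0) (h : x < x') :
    x / b < x' / b ∨ (x / b = x' / b ∧ x % b < x' % b) := by
  rcases lt_or_eq_of_le (div_mono hb h) with h1 | h1
  · exact Or.inl h1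
  · right
    refine ⟨h1, ?_⟩
    rw [← Ordinal.div_add_mod x b, ← Ordinal.div_add_mod x' b, h1] at h
    exact (add_lt_add_iff_left _).1 h

lemma step {a q r q' : Ordinal.{0}} (hr : r < a) (hq : q < q') : a * q + r < a * q' := by
  have h1 : a * q + r < a * q + a := (add_lt_add_iff_left _).2 hr
  have h2 : a * q + a = a * Order.succ q := (Ordinal.mul_succ a q).symm
  rw [h2] at h1
  exact h1.trans_le (mul_le_mul_right (Order.succ_le_of_lt hq) a)

lemma comb {a q r q' r' : Ordinal.{0}} (hr : r < a) (h : q < q' ∨ (q = q' ∧ r < r')) :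
    a * q + r < a * q' + r' := by
  rcases h with h | ⟨rfl, h⟩
  · exact (step hr h).trans_le (le_self_add)
  · exact (add_lt_add_iff_left _).2 h

theorem main (γ : Ordinal.{0}) (g : ℕ → Ordinal.{0}) (hg : ∀ n, g n + 1 < γ)
    (w : Ordinal.{0}) (hw : w = (ℵ₁ : Cardinal.{0}).ord)
    (S : Set Ordinal.{0}) (ζ : Ordinal.{0}) (m : Ordinal.{0} → ℕ) (hζ : ζ < w)
    (hS : ∀ x ∈ S, x < w ^ (γ + 2))
    (hm : ∀ x ∈ S, ζ ≤ x / w ^ (γ + 1) → x % w ^ γ < w ^ (g (m (x / w ^ (γ + 1))))) :
    ∃ f : Ordinal.{0} → Ordinal.{0}, StrictMonoOn f S ∧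
      ∀ x ∈ S, f x < w ^ (γ + 1) * (ζ + 1) := by
  classical
  have w1 : 1 < w := by
    rw [hw, Cardinal.lt_ord, Ordinal.card_one]
    exact Cardinal.one_lt_aleph0.trans_le (Cardinal.aleph0_le_aleph 1)
  have w0 : 0 < w := zero_lt_one.trans w1
  set A := w ^ γ with hA
  set B := w ^ (γ + 1) with hB
  set C := w ^ (γ + 2) with hC
  have hBA : B = A * w := by
    rw [hB, hA, Ordinal.opow_add, Ordinal.opow_one]
  have hCB : C = B * w := by
    rw [hC, hB, show (2 : Ordinal.{0}) = 1 + 1 by norm_num, ← add_assoc, Ordinal.opow_add _ _ 1,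
      Ordinal.opow_one]
  have A0 : A ≠ 0 := (Ordinal.opow_pos _ w0).ne'
  have B0 : B ≠ 0 := (Ordinal.opow_pos _ w0).ne'
  have hmod : ∀ x : Ordinal.{0}, x % B % A = x % A := fun x =>
    Ordinal.mod_mod_of_dvd x ⟨w, hBA⟩
  have hpow : ∀ n : ℕ, w ^ (g n) * w < A := by
    intro n
    have h1 : w ^ (g n) * w = w ^ (g n + 1) := by
      rw [Ordinal.opow_add, Ordinal.opow_one]
    rw [h1, hA]
    exact (Ordinal.opow_lt_opow_iff_right w1).2 (hg n)
  have hη : ∀ x : Ordinal.{0}, x % B / A < w := by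
    intro x
    rw [Ordinal.div_lt A0, ← hBA]
    exact Ordinal.mod_lt x B0
  have hξ : ∀ x ∈ S, x / B < w := by
    intro x hx
    rw [Ordinal.div_lt B0, ← hCB]
    exact hS x hx
  -- the main part
  have hP : ∀ x ∈ S, ζ ≤ x / B →
      w ^ (g (m (x / B))) * (x % B / A) + x % A < A := by
    intro x hx h
    exact (step (hm x hx h) (hη x)).trans (hpow _)
  refine ⟨fun x => if x / B < ζ then x else
    B * ζ + (A * (x / B) + (w ^ (g (m (x / B))) * (x % B / A) + x % A)), ?_, ?_⟩
  · intro x hx x' hx' hxx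
    simp only
    by_cases h : x / B < ζ
    · rw [if_pos h]
      by_cases h' : x' / B < ζ
      · rw [if_pos h']; exact hxx
      · rw [if_neg h']
        have h2 : x < B * ζ := (Ordinal.div_lt B0).1 h
        exact h2.trans_le le_self_add
    · have h3 : ζ ≤ x / B := not_lt.1 h
      have h4 : ζ ≤ x' / B := h3.trans (div_mono B0 hxx)
      rw [if_neg h, if_neg (not_lt.2 h4)]
      refine (add_lt_add_iff_left _).2 (comb (hP x hx h3) ?_)
      rcases div_mod_lt B0 hxx with h5 | ⟨h5, h6⟩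
      · exact Or.inl h5
      · refine Or.inr ⟨h5, ?_⟩
        rw [← h5]
        refine comb (hm x hx h3) ?_
        have h7 := div_mod_lt A0 h6
        rw [hmod, hmod] at h7
        exact h7
  · intro x hx
    simp only
    have hsucc : B * (ζ + 1) = B * ζ + B := by rw [mul_add, mul_one]
    rw [hsucc]
    by_cases h : x / B < ζ
    · rw [if_pos h]
      have h2 : x < B * ζ := (Ordinal.div_lt B0).1 h
      exact h2.trans_le le_self_add
    · rw [if_neg h]
      refine (add_lt_add_iff_left _).2 ?_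
      have h3 : ζ ≤ x / B := not_lt.1 h
      have := step (hP x hx h3) (hξ x hx)
      rwa [← hBA] at this

end Pool.Agent.W910.IPG.G4
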