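import Pool.Agent.W910.IPG.Base
import Pool.Agent.W910.IPG.G4

/-! Rows and levels. -/

set_option autoImplicit false

open Cardinal Ordinal Set

namespace Pool.Agent.W910.IPG.G5

open Pool.Agent.W910.IP Pool.Agent.W910.IPG

/-- `ω₁` -/
noncomputable abbrev w : Ordinal.{0} := (ℵ₁ : Cardinal.{0}).ord

theorem w_pos : 0 < w := by
  rw [Cardinal.lt_ord]
  simp

theorem one_lt_w : 1 < w := by
  rw [Cardinal.lt_ord]
  simp

theorem w_ne : w ≠ 0 := w_pos.ne'

theorem pow_ne (a : Ordinal.{0}) : w ^ a ≠ 0 := (opow_pos a w_pos).ne'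

variable {γ : Ordinal.{0}}

theorem Al_eq : Alg γ = w ^ (γ + 1) * w := by
  have h : (γ + 2) = (γ + 1) + 1 := by
    rw [add_assoc]
    norm_num
  unfold Alg
  rw [h, opow_add _ (γ + 1) 1, opow_one]

theorem nat_lt {g : ℕ → Ordinal.{0}} (hg : ∀ n, g n + 1 < γ) (m : ℕ) (a : Ordinal.{0})
    (ha : γ ≤ a) : w ^ (g m) < w ^ a :=
  (opow_lt_opow_iff_right one_lt_w).2 ((le_self_add.trans_lt (hg m)).trans_le ha)

theorem lim {g : ℕ → Ordinal.{0}} (hg : ∀ n, g n + 1 < γ) (hcof : ∀ a < γ, ∃ n, a < g n) :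
    Order.IsSuccLimit γ := by
  rw [Ordinal.isSuccLimit_iff]
  refine ⟨(bot_le.trans_lt (hg 0)).ne', Order.isSuccPrelimit_of_succ_lt fun a ha => ?_⟩
  obtain ⟨n, hn⟩ := hcof a ha
  exact (Order.succ_le_of_lt hn).trans_lt (le_self_add.trans_lt (hg n))

theorem exlev {g : ℕ → Ordinal.{0}} (hg : ∀ n, g n + 1 < γ) (hcof : ∀ a < γ, ∃ n, a < g n)
    (x : Ordinal.{0}) : ∃ j : ℕ, x % w ^ γ < w ^ (g j) := by
  have h := mod_lt x (pow_ne γ)
  obtain ⟨b, hb, h2⟩ := (lt_opow_of_isSuccLimit w_ne (lim hg hcof)).1 h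
  obtain ⟨n, hn⟩ := hcof b hb
  exact ⟨n, h2.trans ((opow_lt_opow_iff_right one_lt_w).2 hn)⟩

theorem rowlt (x : (Alg γ).ToType) : (ToType.mk.symm x).1 / w ^ (γ + 1) < w := by
  have h : (ToType.mk.symm x).1 < Alg γ := (ToType.mk.symm x).2
  exact (lt_mul_iff_div_lt (pow_ne _)).1 (lt_of_lt_of_eq h Al_eq)

/-- the row -/
noncomputable def row (x : (Alg γ).ToType) : Om := ToType.mk ⟨_, rowlt x⟩

open Classical in
/-- the level -/
noncomputable def lev {g : ℕ → Ordinal.{0}} (hg : ∀ n, g n + 1 < γ)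
    (hcof : ∀ a < γ, ∃ n, a < g n) (x : (Alg γ).ToType) : ℕ :=
  Nat.find (exlev hg hcof (ToType.mk.symm x).1)

theorem row_symm (x : (Alg γ).ToType) :
    (ToType.mk.symm (row x)).1 = (ToType.mk.symm x).1 / w ^ (γ + 1) := by
  unfold row
  rw [OrderIso.symm_apply_apply]

theorem lev_spec {g : ℕ → Ordinal.{0}} (hg : ∀ n, g n + 1 < γ)
    (hcof : ∀ a < γ, ∃ n, a < g n) (x : (Alg γ).ToType) :
    (ToType.mk.symm x).1 % w ^ γ < w ^ (g (lev hg hcof x)) := by
  classical
  unfold lev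
  exact Nat.find_spec (exlev hg hcof (ToType.mk.symm x).1)

theorem main {g : ℕ → Ordinal.{0}} (hg : ∀ n, g n + 1 < γ)
    (hcof : ∀ a < γ, ∃ n, a < g n) (hmono : Monotone g) : S_ordG γ := by
  classical
  refine ⟨row, lev hg hcof, ?_, ?_⟩
  · intro ξ m
    have hdiv : (w ^ (γ + 1) * (ToType.mk.symm ξ).1 + w ^ (g m)) /
        w ^ (γ + 1) = (ToType.mk.symm ξ).1 := by
      rw [mul_add_div _ (pow_ne _), div_eq_zero_of_lt (nat_lt hg m _ le_self_add), add_zero]
    have hmod : (w ^ (γ + 1) * (ToType.mk.symm ξ).1 + w ^ (g m)) %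
        w ^ γ = w ^ (g m) := by
      rw [opow_add _ γ 1, opow_one, mul_assoc, mul_add_mod_self,
        mod_eq_of_lt (nat_lt hg m _ le_rfl)]
    have hlt : w ^ (γ + 1) * (ToType.mk.symm ξ).1 + w ^ (g m) < Alg γ := by
      rw [Al_eq, lt_mul_iff_div_lt (pow_ne _), hdiv]
      exact (ToType.mk.symm ξ).2
    have hs : (ToType.mk.symm (ToType.mk ⟨_, hlt⟩ : (Alg γ).ToType)).1 =
        w ^ (γ + 1) * (ToType.mk.symm ξ).1 + w ^ (g m) := by
      rw [OrderIso.symm_apply_apply]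
    refine ⟨ToType.mk ⟨_, hlt⟩, ?_, ?_⟩
    · apply ToType.mk.symm.injective
      apply Subtype.ext
      rw [row_symm, hs, hdiv]
    · by_contra hc
      rw [not_le] at hc
      have h1 := lev_spec hg hcof (ToType.mk ⟨_, hlt⟩)
      rw [hs, hmod, opow_lt_opow_iff_right one_lt_w] at h1
      exact absurd h1 (not_lt.2 (hmono hc.le))
  · rintro S ⟨e⟩
    by_contra hF
    unfold Full at hF
    push Not at hF
    obtain ⟨ζ, hζ⟩ := hF
    have hζ' : ∀ ξ : Om, ∃ m, ζ ≤ ξ → ∀ x ∈ S, row x = ξ → lev hg hcof x < m := by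
      intro ξ
      by_cases hξ : ζ ≤ ξ
      · obtain ⟨m, hm⟩ := hζ ξ hξ
        exact ⟨m, fun _ => hm⟩
      · exact ⟨0, fun h => absurd h hξ⟩
    choose m hm using hζ'
    let M : Ordinal.{0} → ℕ := fun o => if ho : o < w then m (ToType.mk ⟨o, ho⟩) else 0
    obtain ⟨f, hf, hfb⟩ := G4.main γ g hg w rfl ((fun x : (Alg γ).ToType => (ToType.mk.symm x).1) '' S)
      (ToType.mk.symm ζ).1 M (ToType.mk.symm ζ).2 (by
        rintro _ ⟨x, -, rfl⟩
        exact (ToType.mk.symm x).2) (by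
        rintro _ ⟨x, hx, rfl⟩ hle
        have hM : M ((ToType.mk.symm x).1 / w ^ (γ + 1)) = m (row x) := by
          simp only [M]
          rw [dif_pos (rowlt x)]
          rfl
        rw [hM]
        refine (lev_spec hg hcof x).trans_le ?_
        refine opow_le_opow_right w_pos (hmono ?_)
        refine (hm (row x) ?_ x hx rfl).le
        have : ToType.mk.symm ζ ≤ ToType.mk.symm (row x) := by
          rw [← Subtype.coe_le_coe, row_symm]
          exact hle
        exact ToType.mk.symm.le_iff_le.1 this)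
    have hβ : w ^ (γ + 1) * ((ToType.mk.symm ζ).1 + 1) < Alg γ := by
      rw [Al_eq]
      refine mul_lt_mul_of_pos_left ?_ (opow_pos _ w_pos)
      have hl : Order.IsSuccLimit w := isSuccLimit_ord (aleph0_le_aleph 1)
      have hz : (ToType.mk.symm ζ).1 < w := (ToType.mk.symm ζ).2
      have := hl.succ_lt hz
      rwa [Order.succ_eq_add_one] at this
    have hmono : StrictMono (fun y : (Alg γ).ToType => f (ToType.mk.symm (e.symm y).1).1) := by
      intro y y' hyy
      refine hf ⟨_, (e.symm y).2, rfl⟩ ⟨_, (e.symm y').2, rfl⟩ ?_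
      have h1 : (e.symm y) < (e.symm y') := e.symm.lt_iff_lt.2 hyy
      have h2 : ToType.mk.symm (e.symm y).1 < ToType.mk.symm (e.symm y').1 :=
        ToType.mk.symm.lt_iff_lt.2 h1
      exact h2
    have hle : ∀ y : (Alg γ).ToType, (ToType.mk.symm y).1 ≤ f (ToType.mk.symm (e.symm y).1).1 := by
      intro y
      induction y using (wellFounded_lt (α := (Alg γ).ToType)).induction with
      | _ y ih =>
        apply le_of_forall_lt
        intro o ho
        have hoA : o < Alg γ := ho.trans (ToType.mk.symm y).2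
        have hy' : (ToType.mk ⟨o, hoA⟩ : (Alg γ).ToType) < y := by
          rw [← ToType.mk.symm.lt_iff_lt, OrderIso.symm_apply_apply]
          exact ho
        have h1 := ih _ hy'
        rw [OrderIso.symm_apply_apply] at h1
        exact lt_of_le_of_lt h1 (hmono hy')
    have h1 := hle (ToType.mk ⟨_, hβ⟩)
    rw [OrderIso.symm_apply_apply] at h1
    have h2 := hfb _ ⟨_, (e.symm (ToType.mk ⟨_, hβ⟩)).2, rfl⟩
    exact absurd h2 (not_lt.2 h1)

end Pool.Agent.W910.IPG.G5
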