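import Pool.Agent.W910.IPG.Base

set_option autoImplicit false

open Cardinal Ordinal Set

namespace Pool.Agent.W910.IPG.G6
open Pool.Agent.W910.IP Pool.Agent.W910.IPG

theorem main (γ : Ordinal.{0}) (hγ : γ < (Cardinal.aleph 2 : Cardinal.{0}).ord) :
    ∃ code : (Alg γ).ToType → Om, Function.Injective code := by
  have hc : γ.card ≤ ℵ₁ := by
    have h := Cardinal.lt_ord.1 hγ
    have h2 : (Cardinal.aleph 2 : Cardinal.{0}) = Order.succ ℵ₁ := by
      rw [← Cardinal.aleph_succ]
      congr 1
      rw [Order.succ_eq_add_one]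
      norm_num
    rw [h2] at h
    exact Order.lt_succ_iff.1 h
  have h : Cardinal.mk (Alg γ).ToType ≤ Cardinal.mk Om := by
    have h1 : Cardinal.mk Om = ℵ₁ := by
      unfold Om
      rw [Cardinal.mk_toType, Cardinal.card_ord]
    rw [h1, Cardinal.mk_toType]
    unfold Alg
    refine (Ordinal.card_opow_le _ _).trans ?_
    rw [Cardinal.card_ord]
    refine max_le ?_ (max_le le_rfl ?_)
    · exact Cardinal.aleph0_le_aleph 1
    · rw [Ordinal.card_add]
      refine Cardinal.add_le_of_le (Cardinal.aleph0_le_aleph 1) hc ?_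
      exact (by simp : (2 : Ordinal.{0}).card ≤ ℵ₀).trans (Cardinal.aleph0_le_aleph 1)
  obtain ⟨f⟩ := (Cardinal.le_def _ _).mp h
  exact ⟨f, f.injective⟩

end Pool.Agent.W910.IPG.G6
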