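import Pool.Agent.W910.IP.Fin
import Pool.Agent.W910.IP.Dia
import Pool.Agent.W910.IP.T_IP2
import Pool.Agent.W910.IP.T_IP3
import Pool.Agent.W910.IPG.G5
import Pool.Agent.W910.IPG.G6
import Pool.Agent.W910.IPG.G7

/-! Assembly for `ω₁ ^ (γ + 2)`, `γ` of cofinality `ω`. -/

set_option autoImplicit false

open Cardinal Ordinal Set

namespace Pool.Agent.W910.IPG

open Pool.Agent.W910.IP

theorem finG {γ : Ordinal.{0}} (hrec : S_rec) (hray : S_ray) (hguess : S_guess)
    (hcard : ∃ code : (Alg γ).ToType → Om, Function.Injective code) (hord : S_ordG γ) :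
    Diamond → ¬ P (Alg γ) := by
  intro hD hP
  obtain ⟨row, lev, hne, hfull⟩ := hord
  obtain ⟨code, hcode⟩ := hcard
  obtain ⟨D, hg⟩ := hguess hD _ code hcode row lev
  obtain ⟨A, h1, h2, h3, h4⟩ := hrec Om (Alg γ).ToType countable_Iic row lev hne D
  let G : SimpleGraph (Alg γ).ToType :=
    { Adj := fun x y => x ∈ A (row y) (lev y) ∨ y ∈ A (row x) (lev x)
      symm := ⟨fun x y h => h.symm⟩
      loopless := ⟨fun x h => by
        rcases h with h | h <;> exact lt_irrefl _ (h1 _ _ x h).1⟩ }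
  rcases hP G with ⟨f, hf, hadj⟩ | ⟨S, hind, hiso⟩
  · exact hray Om (Alg γ).ToType row lev (fun z x => z ∈ A (row x) (lev x))
      (fun z x h => h1 _ _ z h)
      (fun z y x h h' => h2 _ _ y h' h) (fun z z' x h h' => h3 _ _ z h z' h') ⟨f, hf, hadj⟩
  · obtain ⟨ν, hr, hs⟩ := hg S (hfull S hiso)
    obtain ⟨ξ, hξ, hun⟩ := hfull S hiso ν
    obtain ⟨J, hJ⟩ := h4 ν hr ξ hξ
    obtain ⟨x, hx, rfl, hl⟩ := hun J
    obtain ⟨z, hz, hzD⟩ := hJ (lev x) hl
    exact hind z (hs hzD) x hx (Or.inl hz)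

theorem notP_seq (h : DiamondOm) (γ : Ordinal.{0}) (hγ : γ < (Cardinal.aleph 2 : Cardinal.{0}).ord)
    (g : ℕ → Ordinal.{0}) (hg : ∀ n, g n < γ) (hcof : ∀ a < γ, ∃ n, a < g n)
    (α : Ordinal.{0}) (h1 : (ℵ₁ : Cardinal.{0}).ord ^ (γ + 2) ≤ α)
    (h2 : α < (ℵ₁ : Cardinal.{0}).ord ^ (γ + ω)) : ¬ P α := by
  have hm : ∀ n, partialSups g n < γ := by
    intro n
    induction n with
    | zero => rw [partialSups_zero]; exact hg 0
    | succ n ih =>
      rw [partialSups_add_one]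
      exact max_lt ih (hg _)
  have hc' : ∀ a < γ, ∃ n, a < partialSups g n := by
    intro a ha
    obtain ⟨n, hn⟩ := hcof a ha
    exact ⟨n, hn.trans_le (le_partialSups g n)⟩
  have hs : ∀ n, partialSups g n + 1 < γ := by
    intro n
    obtain ⟨k, hk⟩ := hcof _ (hm n)
    exact (Order.add_one_le_of_lt hk).trans_lt (hg k)
  intro hP
  exact finG T_IP1.main T_IP2.main T_IP3.main (G6.main γ hγ)
    (G5.main hs hc' (partialSups g).monotone) (diamond_of h) (G7.main α h1 h2 hP)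

end Pool.Agent.W910.IPG
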